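import Pool.Agent.H741.RS.Stm

/-!
# Project RS (MP_9c6456_an): equivariance of the derivative of a representation
-/

set_option autoImplicit false
open scoped ComplexConjugate Topology
open Asymptotics Filter

namespace Pool.Agent.H727.RS
open Pool.Agent.H741.RS

/-- the derivative of the representation along a differentiable curve of unitary maps through `1` -/
theorem deriv_rep {n : ℕ} {E : Type} [NormedAddCommGroup E] [InnerProductSpace ℝ E]
    [FiniteDimensional ℝ E] (R : Rep n E) (U : ℝ → (V n ≃ₗᵢ[ℂ] V n)) (Z : V n →L[ℂ] V n)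
    (h0 : U 0 = 1) (hU : HasDerivAt (fun s : ℝ => ((U s : V n ≃ₗᵢ[ℂ] V n) : V n →L[ℂ] V n)) Z 0) (y : E) :
    HasDerivAt (fun s : ℝ => R.ρ (U s) y) (R.D Z y) 0 := by
  have hU0 : ((U 0 : V n ≃ₗᵢ[ℂ] V n) : V n →L[ℂ] V n) = ContinuousLinearMap.id ℂ (V n) := by
    rw [h0]
    rfl
  -- the linear part
  have : FiniteDimensional ℝ (V n →L[ℂ] V n) := FiniteDimensional.complexToReal (V n →L[ℂ] V n)
  let L : (V n →L[ℂ] V n) →ₗ[ℝ] E :=
    { toFun := fun T => R.D T y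
      map_add' := fun S T => by rw [map_add]; rfl
      map_smul' := fun c T => by rw [map_smul]; rfl }
  have hL : HasDerivAt (fun s : ℝ => L (((U s : V n ≃ₗᵢ[ℂ] V n) : V n →L[ℂ] V n) -
      ContinuousLinearMap.id ℂ (V n))) (L Z) 0 := by
    have h1 := (hU.sub_const (ContinuousLinearMap.id ℂ (V n)))
    exact (LinearMap.toContinuousLinearMap L).hasFDerivAt.comp_hasDerivAt 0 h1
  -- the error
  have hB : (fun s : ℝ => ((U s : V n ≃ₗᵢ[ℂ] V n) : V n →L[ℂ] V n) - ContinuousLinearMap.id ℂ (V n))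
      =O[𝓝 0] (fun s : ℝ => s) := by
    have h1 := hU.isBigO_sub
    rw [hU0] at h1
    simpa using h1
  have hB2 : (fun s : ℝ => ‖((U s : V n ≃ₗᵢ[ℂ] V n) : V n →L[ℂ] V n) - ContinuousLinearMap.id ℂ (V n)‖ ^ 2)
      =O[𝓝 0] (fun s : ℝ => s ^ 2) := hB.norm_left.pow 2
  have hf : (fun s : ℝ => R.ρ (U s) y - y - L (((U s : V n ≃ₗᵢ[ℂ] V n) : V n →L[ℂ] V n) -
      ContinuousLinearMap.id ℂ (V n))) =o[𝓝 0] (fun s : ℝ => s) := by
    have h1 : (fun s : ℝ => R.ρ (U s) y - y - L (((U s : V n ≃ₗᵢ[ℂ] V n) : V n →L[ℂ] V n) -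
        ContinuousLinearMap.id ℂ (V n))) =O[𝓝 0]
        (fun s : ℝ => ‖((U s : V n ≃ₗᵢ[ℂ] V n) : V n →L[ℂ] V n) - ContinuousLinearMap.id ℂ (V n)‖ ^ 2) := by
      refine IsBigO.of_bound (R.C * ‖y‖) (Eventually.of_forall fun s => ?_)
      have h2 := R.hD (U s) y
      rw [Real.norm_of_nonneg (by positivity)]
      refine h2.trans (le_of_eq ?_)
      ring
    exact (h1.trans hB2).trans_isLittleO (isLittleO_pow_id (by norm_num))
  have hf' : HasDerivAt (fun s : ℝ => R.ρ (U s) y - y - L (((U s : V n ≃ₗᵢ[ℂ] V n) : V n →L[ℂ] V n) -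
      ContinuousLinearMap.id ℂ (V n))) 0 0 := by
    rw [hasDerivAt_iff_isLittleO]
    have h1 : R.ρ (U 0) y - y - L (((U 0 : V n ≃ₗᵢ[ℂ] V n) : V n →L[ℂ] V n) -
        ContinuousLinearMap.id ℂ (V n)) = 0 := by
      rw [hU0, sub_self, map_zero, sub_zero, h0, map_one]
      exact sub_self y
    rw [h1]
    simpa using hf
  have h2 := (hf'.add (hL.add_const y))
  have h3 : (0 : E) + L Z = R.D Z y := zero_add _
  rw [h3] at h2
  have h4 : (fun s : ℝ => R.ρ (U s) y) = (fun s : ℝ => R.ρ (U s) y - y -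
      L (((U s : V n ≃ₗᵢ[ℂ] V n) : V n →L[ℂ] V n) - ContinuousLinearMap.id ℂ (V n))) +
      (fun s : ℝ => L (((U s : V n ≃ₗᵢ[ℂ] V n) : V n →L[ℂ] V n) - ContinuousLinearMap.id ℂ (V n)) + y) := by
    funext s
    rw [Pi.add_apply]
    abel
  rw [h4]
  exact h2

/-- exponentials of skew-adjoint operators -/
theorem exists_curve {n : ℕ} (Y : V n →L[ℂ] V n) (hY : ∀ z w, hp (Y z) w = - hp z (Y w)) :
    ∃ U : ℝ → (V n ≃ₗᵢ[ℂ] V n), U 0 = 1 ∧
      HasDerivAt (fun s : ℝ => ((U s : V n ≃ₗᵢ[ℂ] V n) : V n →L[ℂ] V n)) Y 0 := by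
  have hs : star Y = -Y := by
    rw [ContinuousLinearMap.star_eq_adjoint]
    symm
    rw [ContinuousLinearMap.eq_adjoint_iff]
    intro x z
    have h1 := hY z x
    unfold hp at h1
    show inner ℂ (-(Y x)) z = inner ℂ x (Y z)
    rw [inner_neg_left]
    exact h1.symm
  have hmem : ∀ s : ℝ, NormedSpace.exp (s • Y) ∈ unitary (V n →L[ℂ] V n) := by
    intro s
    let +nondep : NormedAlgebra ℚ (V n →L[ℂ] V n) := .restrictScalars ℚ ℂ (V n →L[ℂ] V n)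
    apply NormedSpace.exp_mem_unitary_of_mem_skewAdjoint
    have e : s • Y = (s : ℂ) • Y := by
      ext1 x
      exact (Complex.coe_smul s (Y x)).symm
    rw [skewAdjoint.mem_iff, e, star_smul, hs, smul_neg]
    congr 2
    exact Complex.conj_ofReal s
  refine ⟨fun s => Unitary.linearIsometryEquiv ⟨NormedSpace.exp (s • Y), hmem s⟩, ?_, ?_⟩
  · have h1 : (⟨NormedSpace.exp ((0 : ℝ) • Y), hmem 0⟩ : unitary (V n →L[ℂ] V n)) = 1 := by
      apply Subtype.ext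
      show NormedSpace.exp ((0 : ℝ) • Y) = 1
      have e0 : (0 : ℝ) • Y = 0 := by
        ext1 x
        exact zero_smul ℝ (Y x)
      rw [e0, NormedSpace.exp_zero]
    show Unitary.linearIsometryEquiv ⟨NormedSpace.exp ((0 : ℝ) • Y), hmem 0⟩ = 1
    rw [h1, map_one]
  · have h1 := hasDerivAt_exp_smul_const (𝕂 := ℝ) Y (0 : ℝ)
    rw [zero_smul, NormedSpace.exp_zero, one_mul] at h1
    exact h1

theorem t_EQUI : S_EQUI := by
  intro n E _ _ _ R Y g x hY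
  obtain ⟨U, h0, hU⟩ := exists_curve Y hY
  have h1 := deriv_rep R U Y h0 hU x
  have h2 : HasDerivAt (fun s : ℝ => R.ρ g (R.ρ (U s) x)) (R.ρ g (R.D Y x)) 0 := by
    have h3 := ((R.ρ g).toContinuousLinearEquiv : E →L[ℝ] E).hasFDerivAt.comp_hasDerivAt (0 : ℝ) h1
    exact h3
  have h4 : HasDerivAt (fun s : ℝ => (((g * U s * g⁻¹ : V n ≃ₗᵢ[ℂ] V n)) : V n →L[ℂ] V n))
      ((g : V n →L[ℂ] V n) ∘L Y ∘L ((g⁻¹ : V n ≃ₗᵢ[ℂ] V n) : V n →L[ℂ] V n)) 0 := by
    have h5 := (hU.const_mul (g : V n →L[ℂ] V n)).mul_const ((g⁻¹ : V n ≃ₗᵢ[ℂ] V n) : V n →L[ℂ] V n)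
    exact h5
  have h5 := deriv_rep R (fun s => g * U s * g⁻¹) _ (by rw [h0, mul_one, mul_inv_cancel]) h4 (R.ρ g x)
  have h6 : (fun s : ℝ => R.ρ (g * U s * g⁻¹) (R.ρ g x)) = fun s : ℝ => R.ρ g (R.ρ (U s) x) := by
    funext s
    have h7 : R.ρ (g * U s * g⁻¹) (R.ρ g x) = R.ρ (g * U s * g⁻¹ * g) x := by
      rw [map_mul R.ρ (g * U s * g⁻¹) g]
      rfl
    rw [h7, inv_mul_cancel_right, map_mul]
    rfl
  rw [h6] at h5
  exact h5.unique h2

end Pool.Agent.H727.RS
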